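import Pool.Agent.Run7.h851.T.Iface

/-! Project T (helper851, four odd zeta values), pieces E1, E2 (helper216): the sum over class pairs (port of `Dim7/E1.lean`)
and the numbers of poles in the classes. -/

open Polynomial Pool.Agent.H337R2

namespace Pool.Agent.Run7.h216.T

open Pool.Agent.Run7.h851.T

noncomputable section

theorem t_E1_Kset_sum : St_E1_Kset_sum := by
  intro n p hp hp2 hpn f M hM hf hfM
  classical
  set g : ℕ → ℕ := fun r => (4 * n - r) % p with hg
  have hadd : ∀ r < p, (r + g r) % p = (4 * n) % p := by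
    intro r hr
    simp only [hg]
    rw [Nat.add_mod_mod]
    congr 1
    omega
  have hglt : ∀ r, g r < p := fun r => Nat.mod_lt _ hp.pos
  have hgg : ∀ r < p, g (g r) = r := by
    intro r hr
    have h1 := hadd r hr
    have h2 := hadd (g r) (hglt r)
    have h3 : (g r + g (g r)) ≡ (g r + r) [MOD p] := by
      unfold Nat.ModEq
      rw [h2, ← h1, add_comm]
    have h4 := Nat.ModEq.add_left_cancel' (g r) h3
    exact h4.eq_of_lt_of_lt (hglt _) hr
  have h1 : ∑ r ∈ Finset.range p, f r = ∑ r ∈ (Finset.range p).filter (fun r => r ≤ g r), f r +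
      ∑ r ∈ (Finset.range p).filter (fun r => ¬ r ≤ g r), f r :=
    (Finset.sum_filter_add_sum_filter_not _ _ _).symm
  have h2 : ∑ r ∈ (Finset.range p).filter (fun r => ¬ r ≤ g r), f r =
      ∑ r ∈ (Finset.range p).filter (fun r => r < g r), f r := by
    apply Finset.sum_bij' (fun r _ => g r) (fun r _ => g r)
    · intro r hr
      rw [Finset.mem_filter, Finset.mem_range] at hr ⊢
      refine ⟨hglt r, ?_⟩
      rw [hgg r hr.1]
      omega
    · intro r hr
      rw [Finset.mem_filter, Finset.mem_range] at hr ⊢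
      refine ⟨hglt r, ?_⟩
      rw [hgg r hr.1]
      omega
    · intro r hr
      rw [Finset.mem_filter, Finset.mem_range] at hr
      exact hgg r hr.1
    · intro r hr
      rw [Finset.mem_filter, Finset.mem_range] at hr
      exact hgg r hr.1
    · intro r hr
      rw [Finset.mem_filter, Finset.mem_range] at hr
      exact hf r hr.1
  have h3 : ∑ r ∈ (Finset.range p).filter (fun r => r ≤ g r), f r =
      ∑ r ∈ (Finset.range p).filter (fun r => r < g r), f r +
      ∑ r ∈ (Finset.range p).filter (fun r => r = g r), f r := by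
    rw [← Finset.sum_union]
    · apply Finset.sum_congr _ (fun _ _ => rfl)
      ext r
      simp only [Finset.mem_filter, Finset.mem_union, Finset.mem_range]
      omega
    · rw [Finset.disjoint_left]
      intro r hr hr'
      rw [Finset.mem_filter] at hr hr'
      omega
  have h4 : ((Finset.range p).filter (fun r => r = g r)).card ≤ 1 := by
    rw [Finset.card_le_one]
    intro a ha b hb
    rw [Finset.mem_filter, Finset.mem_range] at ha hb
    have ha2 := hadd a ha.1
    rw [← ha.2] at ha2
    have hb2 := hadd b hb.1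
    rw [← hb.2] at hb2
    have h5 : (2 * a) ≡ (2 * b) [MOD p] := by
      unfold Nat.ModEq
      rw [two_mul, two_mul, ha2, hb2]
    have hcop : Nat.gcd p 2 = 1 := (Nat.coprime_primes hp Nat.prime_two).2 hp2
    have h6 : a ≡ b [MOD p] := Nat.ModEq.cancel_left_of_coprime hcop h5
    exact h6.eq_of_lt_of_lt ha.1 hb.1
  have h5 : ∑ r ∈ (Finset.range p).filter (fun r => r = g r), f r ≤ M := by
    calc ∑ r ∈ (Finset.range p).filter (fun r => r = g r), f r
        ≤ ∑ _r ∈ (Finset.range p).filter (fun r => r = g r), M := by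
          apply Finset.sum_le_sum
          intro r hr
          rw [Finset.mem_filter, Finset.mem_range] at hr
          exact hfM r hr.1
      _ = (((Finset.range p).filter (fun r => r = g r)).card : ℤ) * M := by
          rw [Finset.sum_const, nsmul_eq_mul]
      _ ≤ 1 * M := mul_le_mul_of_nonneg_right (by exact_mod_cast h4) hM
      _ = M := one_mul M
  have hK : Kset n p = (Finset.range p).filter (fun r => r ≤ g r) := rfl
  rw [hK, h1, h2, h3]
  linarith


/-- the number of poles in the class of `r` -/
lemma Np_val {n p r : ℕ} (hp : 0 < p) (hr : r < p) :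
    (Np n p r : ℤ) = if r ≤ 4 * n % p then ((4 * n / p : ℕ) : ℤ) + 1 else ((4 * n / p : ℕ) : ℤ) := by
  have hp' : (0 : ℤ) < p := by exact_mod_cast hp
  have hp0 : (p : ℤ) ≠ 0 := hp'.ne'
  have h1 := cnt_eq p 0 (4 * n) r hp (by omega)
  have h2 : (((0 : ℕ) : ℤ) - 1 - (r : ℤ)) / (p : ℤ) = -1 := by
    have e : (((0 : ℕ) : ℤ) - 1 - (r : ℤ)) = ((p : ℤ) - 1 - r) + p * (-1) := by push_cast; ring
    rw [e, Int.add_mul_ediv_left _ _ hp0, Int.ediv_eq_zero_of_lt (by omega) (by omega)]
    norm_num
  have h3 : ((4 * n : ℕ) : ℤ) = ((4 * n % p : ℕ) : ℤ) + p * ((4 * n / p : ℕ) : ℤ) := by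
    exact_mod_cast (Nat.mod_add_div (4 * n) p).symm
  have h4 : ((4 * n : ℕ) : ℤ) - r = (((4 * n % p : ℕ) : ℤ) - r) + p * ((4 * n / p : ℕ) : ℤ) := by
    rw [h3]
    ring
  have h5 := Nat.mod_lt (4 * n) hp
  unfold Np
  rw [h1, h2, h4, Int.add_mul_ediv_left _ _ hp0]
  generalize hs : 4 * n % p = s at *
  generalize hq : 4 * n / p = q at *
  split_ifs with h
  · rw [Int.ediv_eq_zero_of_lt (by omega) (by omega)]
    ring
  · have h6 : ((s : ℤ) - r) / (p : ℤ) = -1 := by
      have e : ((s : ℤ) - r) = ((p : ℤ) + s - r) + p * (-1) := by ring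
      rw [e, Int.add_mul_ediv_left _ _ hp0, Int.ediv_eq_zero_of_lt (by omega) (by omega)]
      norm_num
    rw [h6]
    ring

theorem t_E2_Np : St_E2_Np := by
  intro n p _ hp
  constructor
  · intro r hr
    have h := Np_val (n := n) hp hr
    split_ifs at h with h1
    · right
      exact_mod_cast h
    · left
      exact_mod_cast h
  · have h1 : (Finset.range (4 * n + 1)).card =
        ∑ r ∈ Finset.range p, ((Finset.range (4 * n + 1)).filter fun m => m % p = r).card :=
      Finset.card_eq_sum_card_fiberwise (fun m _ => Finset.mem_coe.2 (Finset.mem_range.2 (Nat.mod_lt m hp)))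
    rw [Finset.card_range] at h1
    rw [h1]
    refine Finset.sum_congr rfl fun r hr => ?_
    rw [Finset.mem_range] at hr
    unfold Np cnt
    congr 1
    ext m
    simp only [Finset.mem_filter, Finset.mem_Icc, Finset.mem_range]
    have h2 : ((p : ℤ) ∣ (m : ℤ) - r) ↔ m % p = r := by
      constructor
      · intro h
        have h4 : (m : ℤ) % p = (r : ℤ) % p := Int.emod_eq_emod_iff_emod_sub_eq_zero.2
          (Int.emod_eq_zero_of_dvd h)
        have h5 : m % p = r % p := by exact_mod_cast h4
        rw [h5, Nat.mod_eq_of_lt hr]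
      · intro h
        apply Int.dvd_of_emod_eq_zero
        rw [← Int.emod_eq_emod_iff_emod_sub_eq_zero]
        have h6 : (r : ℤ) = ((m % p : ℕ) : ℤ) := by rw [h]
        rw [h6]
        push_cast
        rw [Int.emod_emod_of_dvd _ (dvd_refl _)]
    rw [h2]
    constructor
    · rintro ⟨⟨_, h3⟩, h4⟩
      exact ⟨by omega, h4⟩
    · rintro ⟨h3, h4⟩
      exact ⟨⟨by omega, by omega⟩, h4⟩

end

end Pool.Agent.Run7.h216.T
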