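import Pool.Agent.Run7.h216.T.E12

/-! Project T (helper851, four odd zeta values), pieces E3A, E3B, E4 (helper216): the p-adic exponents. -/

open Polynomial Pool.Agent.H337R2

namespace Pool.Agent.Run7.h216.T

open Pool.Agent.Run7.h851.T

noncomputable section

/-- symmetry of the number of poles -/
lemma Np_sym {n p r : ℕ} (hp : 0 < p) (hpn : p ≤ 4 * n) (hr : r < p) :
    Np n p ((4 * n - r) % p) = Np n p r := by
  have h0 : 4 * n % p + p * (4 * n / p) = 4 * n := Nat.mod_add_div _ _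
  have hs := Nat.mod_lt (4 * n) hp
  have hq : 1 ≤ 4 * n / p := (Nat.one_le_div_iff hp).2 hpn
  have key : (4 * n - r) % p ≤ 4 * n % p ↔ r ≤ 4 * n % p := by
    generalize 4 * n % p = s at *
    generalize 4 * n / p = q at *
    by_cases h : r ≤ s
    · have e : 4 * n - r = (s - r) + p * q := by omega
      rw [e, Nat.add_mul_mod_self_left, Nat.mod_eq_of_lt (by omega)]
      exact ⟨fun _ => h, fun _ => by omega⟩
    · obtain ⟨q', rfl⟩ : ∃ q', q = q' + 1 := ⟨q - 1, by omega⟩
      have e : 4 * n - r = (p + s - r) + p * q' := by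
        rw [mul_add] at h0
        omega
      rw [e, Nat.add_mul_mod_self_left, Nat.mod_eq_of_lt (by omega)]
      exact ⟨fun h' => by omega, fun h' => absurd h' h⟩
  have h1 := Np_val (n := n) hp hr
  have h2 := Np_val (n := n) hp (Nat.mod_lt (4 * n - r) hp)
  rw [if_congr key rfl rfl] at h2
  exact_mod_cast h2.trans h1.symm

lemma T4_le (y : ℤ) : ((T4 y : ℤ) : ℝ) ≤ 3 / 8 * ((y : ℝ) + 1) ^ 2 := by
  unfold T4
  split_ifs with h
  · have h1 : (3 * (y + 1) ^ 2 / 8) * 8 ≤ 3 * (y + 1) ^ 2 := Int.ediv_mul_le _ (by norm_num)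
    have h2 : (((3 * (y + 1) ^ 2 / 8 : ℤ) : ℝ)) * 8 ≤ 3 * ((y : ℝ) + 1) ^ 2 := by exact_mod_cast h1
    linarith
  · push_cast
    positivity

lemma T4_le_of {y : ℤ} (h : y + 1 ≤ 12800) : T4 y ≤ 61440000 := by
  unfold T4
  split_ifs with h0
  · have h1 : (y + 1) ^ 2 ≤ 12800 ^ 2 := pow_le_pow_left₀ (by omega) h 2
    omega
  · norm_num

lemma tents (n p q : ℕ) (hq : q < 200) : (4 * (n : ℝ) * q - p * q * (q + 1) / 2) ≤
    ∑ j ∈ Finset.Icc 1 200, tn (4 * n) j p := by
  have h1 : ∑ j ∈ Finset.Icc 1 q, (4 * (n : ℝ) - j * p) = 4 * (n : ℝ) * q - p * q * (q + 1) / 2 := by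
    clear hq
    induction q with
    | zero => simp
    | succ q ih =>
      rw [Finset.sum_Icc_succ_top (by omega), ih]
      push_cast
      ring
  rw [← h1]
  calc ∑ j ∈ Finset.Icc 1 q, (4 * (n : ℝ) - j * p) ≤ ∑ j ∈ Finset.Icc 1 q, tn (4 * n) j p := by
        refine Finset.sum_le_sum fun j _ => ?_
        change _ ≤ ((4 * n - j * p : ℕ) : ℝ)
        have := Nat.sub_le (4 * n) (j * p)
        rcases le_total (j * p) (4 * n) with h | h
        · rw [Nat.cast_sub h]
          push_cast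
          exact le_rfl
        · rw [Nat.sub_eq_zero_of_le h]
          have h' : (4 * (n : ℝ)) ≤ j * p := by exact_mod_cast h
          push_cast
          linarith
    _ ≤ ∑ j ∈ Finset.Icc 1 200, tn (4 * n) j p := by
        refine Finset.sum_le_sum_of_subset_of_nonneg ?_ fun j _ _ => Nat.cast_nonneg _
        exact Finset.Icc_subset_Icc le_rfl hq.le

theorem t_E3_A (hE1 : St_E1_Kset_sum) (hE2 : St_E2_Np) : St_E3_A := by
  refine ⟨10 ^ 8, ?_⟩
  intro n p hp hn h50 h3 h144 a ha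
  have hp0 : 0 < p := hp.pos
  obtain ⟨q, hq⟩ : ∃ q, q = 4 * n / p := ⟨_, rfl⟩
  obtain ⟨A0, hA0⟩ : ∃ A0, A0 = (128 * n + p) / (2 * p) := ⟨_, rfl⟩
  have hq200 : q < 200 := by
    rw [hq]
    exact Nat.div_lt_of_lt_mul (by omega)
  have hA1 : 2 * p * A0 ≤ 128 * n + p := by
    rw [hA0]
    exact Nat.mul_div_le _ _
  have hA2 : 128 * n + p < 2 * p * (A0 + 1) := by
    rw [hA0]
    exact Nat.lt_mul_div_succ _ (by omega)
  have hoM : oM n p = 64 * (q : ℤ) := by
    unfold oM
    rw [hq]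
  rw [← hA0, hoM] at ha
  have heM : ∀ r, eM n p r - a = 64 * (Np n p r : ℤ) - A0 - 1 := by
    intro r
    unfold eM fM
    rw [hoM, ha]
    ring
  obtain ⟨hN1, hN2⟩ := hE2 (n := n) (p := p) (by omega) hp0
  rw [← hq] at hN1
  have hp2 : p ≠ 2 := by
    intro h2
    rw [h2] at h144
    norm_num at h144
    omega
  have hE := hE1 (n := n) (p := p) hp hp2 (by omega) (fun r => T4 (eM n p r - a)) 61440000 (by norm_num) (by
    intro r hr
    rw [heM, heM, Np_sym hp0 (by omega) hr]) (by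
    intro r hr
    apply T4_le_of
    rw [heM]
    rcases hN1 r hr with h | h
    · rw [h]
      omega
    · rw [h]
      push_cast
      omega)
  -- the sum over all classes
  have hS : ((∑ r ∈ Finset.range p, T4 (eM n p r - a) : ℤ) : ℝ) ≤
      3 / 8 * (p * (64 * q - A0) ^ 2 + (4 * n + 1 - p * q) * (4096 * (2 * q + 1) - 128 * A0)) := by
    rw [Int.cast_sum]
    have h1 : ∀ r ∈ Finset.range p, ((T4 (eM n p r - a) : ℤ) : ℝ) ≤
        3 / 8 * ((64 * (q : ℝ) - A0) ^ 2 + ((Np n p r : ℝ) - q) * (4096 * (2 * q + 1) - 128 * A0)) := by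
      intro r hr
      refine (T4_le _).trans (le_of_eq ?_)
      rw [heM]
      rcases hN1 r (Finset.mem_range.1 hr) with h | h
      · rw [h]
        push_cast
        ring
      · rw [h]
        push_cast
        ring
    refine (Finset.sum_le_sum h1).trans (le_of_eq ?_)
    rw [← Finset.mul_sum, Finset.sum_add_distrib, Finset.sum_const, Finset.card_range, nsmul_eq_mul,
      ← Finset.sum_mul, Finset.sum_sub_distrib, Finset.sum_const, Finset.card_range, nsmul_eq_mul]
    have h2 : ∑ r ∈ Finset.range p, (Np n p r : ℝ) = 4 * n + 1 := by exact_mod_cast hN2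
    rw [h2]
  have hE' : 2 * ((∑ κ ∈ Kset n p, T4 (eM n p κ - a) : ℤ) : ℝ) ≤
      ((∑ r ∈ Finset.range p, T4 (eM n p r - a) : ℤ) : ℝ) + 61440000 := by exact_mod_cast hE
  have ht := tents n p q hq200
  have hpr : (0 : ℝ) < p := by exact_mod_cast hp0
  obtain ⟨δ, hδ⟩ : ∃ δ : ℝ, δ = A0 - 64 * ((n : ℝ) / p) := ⟨_, rfl⟩
  have hδ1 : δ ≤ 1 / 2 := by
    have h1 : (2 * (p : ℝ) * A0) ≤ 128 * n + p := by exact_mod_cast hA1
    rw [hδ, sub_le_iff_le_add]
    have h2 : (1 / 2 + 64 * ((n : ℝ) / p)) = (128 * n + p) / (2 * p) := by field_simp; ring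
    rw [h2, le_div_iff₀ (by positivity)]
    linarith
  have hδ2 : -(1 / 2) ≤ δ := by
    have h1 : (128 * (n : ℝ) + p) < 2 * p * (A0 + 1) := by exact_mod_cast hA2
    rw [hδ]
    have h2 : (64 * ((n : ℝ) / p)) = (64 * n) / p := by ring
    rw [h2, le_sub_iff_add_le, ← le_sub_iff_add_le', div_le_iff₀ hpr]
    nlinarith
  have hδ3 : δ ^ 2 ≤ 1 / 4 := by nlinarith
  have key : (24 * (n : ℝ)) * (3 * A0 - 5 - 192 * q) +
      3 / 16 * (p * (64 * q - A0) ^ 2 + (4 * n - p * q) * (4096 * (2 * q + 1) - 128 * A0)) =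
      2952 * n - 4608 * (n * q) - 768 * (n ^ 2 / p) + 1536 * (4 * (n : ℝ) * q - p * q * (q + 1) / 2) +
      3 / 16 * p * δ ^ 2 := by
    rw [hδ]
    field_simp
    ring
  have hn24 : (((24 * n - 24 : ℕ) : ℤ) : ℝ) = 24 * n - 24 := by
    have : ((24 * n - 24 : ℕ) : ℤ) = 24 * n - 24 := by omega
    rw [this]
    push_cast
    ring
  have hA3 : (A0 : ℝ) ≥ 0 := Nat.cast_nonneg _
  have hq3 : (q : ℝ) ≤ 200 := by exact_mod_cast hq200.le
  have hq4 : (0 : ℝ) ≤ q := Nat.cast_nonneg _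
  rw [Int.cast_add, Int.cast_mul, hn24, ha]
  unfold EA
  rw [← hq]
  rw [ha] at hE' hS
  have hpδ : 3 / 16 * (p : ℝ) * δ ^ 2 ≤ 3 / 64 * p := by nlinarith
  push_cast at hE' hS ⊢
  linarith

theorem t_E3_B : St_E3_B := by
  refine ⟨100000, ?_⟩
  intro n p hp hn h3 h4
  have hp0 : 0 < p := hp.pos
  unfold EB
  by_cases h2 : p ≤ 2 * n
  · rw [if_pos h2]
    have hdiv : 4 * n / p = 2 := by
      rw [Nat.div_eq_iff hp0]
      omega
    have hA : 2 * (Alow n p).card ≤ 3 * p - 4 * n + 2 := by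
      have hsub : Alow n p ⊆ Finset.Icc (4 * n - 2 * p + 1) ((4 * n - p) / 2) := by
        intro a ha
        unfold Alow at ha
        rw [Finset.mem_filter, Finset.mem_Icc] at ha
        rw [Finset.mem_Icc]
        omega
      have := Finset.card_le_card hsub
      rw [Nat.card_Icc] at this
      omega
    have hM : (Amid n p).card ≤ 2 * n + 1 - p := by
      have hsub : Amid n p ⊆ Finset.Icc p (2 * n) := by
        intro a ha
        unfold Amid at ha
        rw [Finset.mem_filter, Finset.mem_Icc] at ha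
        rw [Finset.mem_Icc]
        omega
      have := Finset.card_le_card hsub
      rw [Nat.card_Icc] at this
      exact this
    have key : -(3 * ((24 * n - 24 : ℕ) : ℤ) * oM n p) + ((24 * n - 24 : ℕ) : ℤ) +
        4096 * ((Alow n p).card : ℤ) + 13541 * ((Amid n p).card : ℤ) ≤ 9698 * n - 7397 * p + 100000 := by
      unfold oM
      rw [hdiv]
      omega
    have := (Int.cast_le (R := ℝ)).2 key
    push_cast at this ⊢
    linarith
  · rw [if_neg h2]
    have hdiv : 4 * n / p = 1 := by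
      rw [Nat.div_eq_iff hp0]
      omega
    have hA : 2 * (Alow n p).card ≤ 4 * n - p + 2 := by
      have hsub : Alow n p ⊆ Finset.Icc 0 ((4 * n - p) / 2) := by
        intro a ha
        unfold Alow at ha
        rw [Finset.mem_filter, Finset.mem_Icc] at ha
        rw [Finset.mem_Icc]
        omega
      have := Finset.card_le_card hsub
      rw [Nat.card_Icc] at this
      omega
    have hM : (Amid n p).card = 0 := by
      rw [Finset.card_eq_zero]
      unfold Amid
      rw [Finset.Icc_eq_empty (by omega), Finset.filter_empty]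
    have key : -(3 * ((24 * n - 24 : ℕ) : ℤ) * oM n p) + ((24 * n - 24 : ℕ) : ℤ) +
        4096 * ((Alow n p).card : ℤ) + 13541 * ((Amid n p).card : ℤ) ≤ 3608 * n - 2048 * p + 100000 := by
      unfold oM
      rw [hdiv, hM]
      omega
    have := (Int.cast_le (R := ℝ)).2 key
    push_cast at this ⊢
    linarith

theorem to_rpow {p : ℕ} (hp : 1 ≤ p) {x : ℚ} {z : ℤ} {E : ℝ} (h : x ≤ (p : ℚ) ^ z)
    (hz : (z : ℝ) ≤ E) : (x : ℝ) ≤ (p : ℝ) ^ E := by
  have hp1 : (1 : ℝ) ≤ (p : ℝ) := by exact_mod_cast hp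
  have h1 : (x : ℝ) ≤ (((p : ℚ) ^ z : ℚ) : ℝ) := by exact_mod_cast h
  refine h1.trans ?_
  rw [Rat.cast_zpow, Rat.cast_natCast, ← Real.rpow_intCast]
  exact Real.rpow_le_rpow_of_exponent_le hp1 hz

theorem t_E4_padic (h1 : St_D3_det_padic) (h2 : St_D3_large) (h3 : St_D3_mix) (h4 : St_D2_kap_mem)
    (hA : St_E3_A) (hB : St_E3_B) : St_E4_padic := by
  obtain ⟨KA, hKA⟩ := hA
  obtain ⟨KB, hKB⟩ := hB
  refine ⟨max KA (max KB 0), (le_max_right KB 0).trans (le_max_right _ _), ?_⟩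
  have m1 : KA ≤ max KA (max KB 0) := le_max_left _ _
  have m2 : KB ≤ max KA (max KB 0) := (le_max_left _ _).trans (le_max_right _ _)
  intro n hn p hp hnp hp2 q α β γ hα hβ hγ hβ3 hγ5
  have : Fact p.Prime := ⟨hp⟩
  have hp1 : 1 ≤ p := hp.one_lt.le
  have hm : 72 * n - 72 = 3 * (24 * n - 24) := by omega
  rw [hm]
  unfold DD
  by_cases hlt : p < 4 * n
  · rw [if_pos hlt]
    by_cases h4n : 3 * p ≤ 4 * n
    · have g := h1 (n := n) (p := p) (by omega) (by omega) q α β γ hα hβ hγ hβ3 hγ5 (24 * n - 24)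
        ((((128 * n + p) / (2 * p) : ℕ) : ℤ) + 1 - oM n p)
        (Kset n p) subset_rfl
        (fun k hk => Or.inl (h4 hp.pos (by rw [Finset.mem_Icc] at hk; omega)))
      refine to_rpow hp1 g ?_
      refine (hKA n p hp (by omega) hnp h4n hp2 _ rfl).trans ?_
      rw [EW, if_pos h4n]
      linarith
    · push Not at h4n
      have g := h3 (n := n) (p := p) (by omega) (by omega) h4n hlt q α β γ hα hβ hγ hβ3 hγ5 (24 * n - 24)
      have g2 := hKB n p hp (by omega) h4n hlt
      refine to_rpow hp1 g ?_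
      refine g2.trans ?_
      rw [EW, if_neg (by omega)]
      linarith
  · rw [if_neg hlt]
    have h6 : 4 * n < p := by
      rcases lt_or_eq_of_le (not_lt.mp hlt) with h | h
      · exact h
      · exfalso
        have h7 : 2 ∣ p := ⟨2 * n, by omega⟩
        have h8 := (Nat.prime_dvd_prime_iff_eq Nat.prime_two hp).1 h7
        omega
    have g := h2 (n := n) (p := p) (by omega) h6 q α β γ hα hβ hγ hβ3 hγ5 (24 * n - 24)
    exact_mod_cast g

/-- E3A without hypotheses -/
theorem t_E3_A' : St_E3_A := t_E3_A t_E1_Kset_sum t_E2_Np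

/-- E4 from the parts of the other pieces only -/
theorem t_E4_padic' (h1 : St_D3_det_padic) (h2 : St_D3_large) (h3 : St_D3_mix) (h4 : St_D2_kap_mem) :
    St_E4_padic := t_E4_padic h1 h2 h3 h4 t_E3_A' t_E3_B

end

end Pool.Agent.Run7.h216.T
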